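import Pool.Agent.VB.C

/-!
# Large structures of scattered classes: coding and the branch lemma
-/

set_option autoImplicit false
set_option linter.unusedSectionVars false
set_option linter.unusedVariables false

namespace Pool.Agent.Helper97.LO

open Set Pool.Agent.Helper5.DU Pool.Agent.Helper6.Str Pool.Agent.Helper79.VC
  Pool.Agent.Helper97.VC Pool.Agent.Helper97.MD

variable {L : FirstOrder.Language.{0, 0}} {M N P : Type}

section

variable [∀ n, IsEmpty (L.Functions n)] [∀ n, Countable (L.Relations n)]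
  {K : Set (L.Structure ℕ)} {δ : Ordinal.{0}} {S : L.Structure M}

theorem VSt.mono (h : VSt K δ S) {δ' : Ordinal.{0}} (h1 : δ ≤ δ') (h2 : δ' < om1) :
    VSt K δ' S :=
  ⟨h.meas, h.scat, h2, h.om.trans h1, fun T hT T' hT' => h.clos T hT T' (hT'.mono h1), h.lev⟩

theorem VSt.infinite (h : VSt K δ S) : Infinite M := infinite_of_lev h.lev

theorem VSt.code (h : VSt K δ S) {γ : Ordinal.{0}} (hγ : γ < om1) (n : ℕ) :
    ∃ κ : (Fin n → M) → ℕ, ∀ v w, κ v = κ w → BFR S S univ univ γ (pr v w) := by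
  have hlt : γ + (n : Ordinal.{0}) < om1 := add_lt_om1 hγ (natCast_lt_om1 n)
  obtain ⟨S1, hS1, h1⟩ := h.lev _ hlt
  obtain ⟨ρ, hρ⟩ := h.scat γ hγ n
  have hy : ∀ v : Fin n → M, ∃ y : Fin n → ℕ,
      BFR S S1 univ univ γ (∅ ∪ range fun i => (v i, y i)) := by
    intro v
    obtain ⟨y, -, hy⟩ := BFR.forth_many n h1 v fun _ => mem_univ _
    exact ⟨y, hy⟩
  choose y hy using hy
  have hm : ∀ v, ∃ m, (ρ m).1 ∈ K ∧ BFR S1 (ρ m).1 univ univ γ (pr (y v) (ρ m).2) :=
    fun v => hρ S1 hS1 (y v)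
  choose κ hκ1 hκ2 using hm
  refine ⟨κ, fun v w hvw => ?_⟩
  have h2 : ∀ v, BFR S (ρ (κ v)).1 univ univ γ (range fun i => (v i, (ρ (κ v)).2 i)) := by
    intro v
    refine BFR.trans (hy v) (hκ2 v) ?_
    rintro _ ⟨i, rfl⟩
    exact ⟨y v i, Or.inr ⟨i, rfl⟩, ⟨i, rfl⟩⟩
  have h3 : BFR S (ρ (κ v)).1 univ univ γ (range fun i => (w i, (ρ (κ v)).2 i)) := by
    rw [hvw]
    exact h2 w
  have h4 : BFR (ρ (κ v)).1 S univ univ γ (range fun i => ((ρ (κ v)).2 i, w i)) := by
    refine BFR.symm h3 ?_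
    rintro _ ⟨i, rfl⟩
    exact ⟨i, rfl⟩
  refine BFR.trans (h2 v) h4 ?_
  rintro _ ⟨i, rfl⟩
  exact ⟨(ρ (κ v)).2 i, ⟨i, rfl⟩, ⟨i, rfl⟩⟩

theorem VSt.small (h : VSt K δ S) : Small S univ := by
  intro γ hγ F _
  obtain ⟨κ, hκ⟩ := countable_classes h.scat hγ h.lev F
  exact ⟨κ, fun c _ c' _ hcc => hκ c c' hcc⟩

/-- definable pieces are small -/
theorem VSt.small_sub (h : VSt K δ S) (F : Finset M) {X : Set M} {κ : Ordinal.{0}}
    (hκ : κ < om1) (H : ∀ c c', BFR S S univ univ κ (insert (c, c') (dg (F : Set M))) →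
      (c ∈ X ↔ c' ∈ X)) : Small S X := by
  classical
  intro γ hγ G hG
  obtain ⟨μ, hμ⟩ := countable_classes h.scat (add_lt_om1 hκ hγ) h.lev (F ∪ G)
  refine ⟨μ, fun c hc c' hc' hcc => ?_⟩
  have h1 := hμ c c' hcc
  have h2 : BFR S S X X γ (insert (c, c') ((fun a => (a, a)) '' ((F ∪ G : Finset M) : Set M))) := by
    refine BFR.restr (subset_univ _) (subset_univ _) κ γ (fun x _ y _ hxy => ?_) h1
    refine H x y (BFR.anti (insert_subset_insert ?_) hxy)
    refine Subset.trans (image_mono ?_) (subset_insert _ _)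
    intro a ha
    exact Finset.mem_coe.mpr (Finset.mem_union_left _ ha)
  refine BFR.anti (insert_subset_insert (image_mono ?_)) h2
  intro a ha
  exact Finset.mem_coe.mpr (Finset.mem_union_right _ ha)

/-- structures equivalent at level `δ` are of the class -/
theorem VSt.congr (h : VSt K δ S) {T : L.Structure N} (hT : BFI S T univ univ ∅) :
    VSt K δ T := by
  refine ⟨h.meas, h.scat, h.lt, h.om, h.clos, fun γ hγ => ?_⟩
  obtain ⟨S', hS', h1⟩ := h.lev γ hγ
  refine ⟨S', hS', ?_⟩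
  have h2 : BFR T S univ univ γ ∅ := (hT γ hγ).symm fun a ha => absurd ha (notMem_empty a)
  exact h2.trans h1 fun a ha => absurd ha (notMem_empty a)

/-- there is no injection of the subsets of the natural numbers in the natural numbers -/
theorem not_injective_cantor (g : (ℕ → Bool) → ℕ) (hg : Function.Injective g) : False := by
  have h1 : Countable (ℕ → Bool) := hg.countable
  have h2 : Uncountable (ℕ → Bool) := by
    rw [← not_countable_iff]
    intro h3
    have h4 : Cardinal.mk (ℕ → Bool) ≤ Cardinal.aleph0 := Cardinal.mk_le_aleph0_iff.mpr h3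
    have h5 : Cardinal.mk (ℕ → Bool) = 2 ^ Cardinal.aleph0 := by
      rw [← Cardinal.power_def]
      simp
    rw [h5] at h4
    exact absurd (Cardinal.cantor Cardinal.aleph0) (not_lt.mpr h4)
  exact not_countable h1

/-- **Coding.** A scattered class does not contain a family of structures indexed by the subsets
of the natural numbers which are decoded at a countable level. -/
theorem VSt.false_of_code (h : VSt K δ S) (N : (ℕ → Bool) → Type)
    (T : ∀ f, L.Structure (N f)) (hc : ∀ f, Countable (N f))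
    (hT : ∀ f, BFR (T f) S univ univ δ ∅) {γ : Ordinal.{0}} (hγ : γ < om1)
    (H : ∀ f g, BFR (T f) (T g) univ univ γ ∅ → f = g) : False := by
  have hinf : Infinite M := h.infinite
  have hNinf : ∀ f, Infinite (N f) := by
    intro f
    by_contra hcon
    rw [not_infinite_iff_finite] at hcon
    have := Fintype.ofFinite (N f)
    have hle : (0 : Ordinal.{0}) + ((Fintype.card (N f) + 1 : ℕ) : Ordinal.{0}) ≤ δ := by
      rw [zero_add]
      exact (Ordinal.natCast_lt_omega0 _).le.trans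
        ((le_self_add (a := Ordinal.omega0) (b := Ordinal.omega0)).trans h.om)
    have h1 : BFR (T f) S univ univ
      (0 + ((Fintype.card (N f) + 1 : ℕ) : Ordinal.{0})) ∅ := (hT f).mono hle
    let v : Fin (Fintype.card (N f) + 1) → M := fun i => Infinite.natEmbedding M i
    obtain ⟨x, -, hx⟩ := BFR.back_many _ h1 v fun _ => mem_univ _
    have hinj : Function.Injective x := by
      intro i j hij
      have := (hx.atEq.1 (x i, v i) (Or.inr ⟨i, rfl⟩) (x j, v j) (Or.inr ⟨j, rfl⟩)).mp hij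
      have h2 := (Infinite.natEmbedding M).injective this
      exact Fin.ext h2
    have := Fintype.card_le_of_injective x hinj
    simp at this
  have he : ∀ f, Nonempty (ℕ ≃ N f) := by
    intro f
    have := hc f
    have := hNinf f
    exact nonempty_equiv_of_countable
  let e : ∀ f, ℕ ≃ N f := fun f => (he f).some
  have hpl : ∀ (f : ℕ → Bool) (γ : Ordinal.{0}),
      BFR (pl (T f) (e f)) (T f) univ univ γ ∅ := by
    intro f γ
    have h1 := BFR_pl (S := T f) (f := e f) (e f).injective γ (p := ∅)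
      fun a ha => absurd ha (notMem_empty a)
    rwa [(e f).surjective.range_eq] at h1
  obtain ⟨S1, hS1, h1⟩ := h.lev δ h.lt
  have hK : ∀ f, pl (T f) (e f) ∈ K := by
    intro f
    refine h.clos S1 hS1 _ ?_
    have h2 : BFR (pl (T f) (e f)) S univ univ δ ∅ :=
      (hpl f δ).trans (hT f) fun a ha => absurd ha (notMem_empty a)
    have h3 : BFR (pl (T f) (e f)) S1 univ univ δ ∅ :=
      h2.trans h1 fun a ha => absurd ha (notMem_empty a)
    exact h3.symm fun a ha => absurd ha (notMem_empty a)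
  obtain ⟨ρ, hρ⟩ := h.scat γ hγ 0
  have hm : ∀ f, ∃ m, BFR (pl (T f) (e f)) (ρ m).1 univ univ γ ∅ := by
    intro f
    obtain ⟨m, -, hm⟩ := hρ _ (hK f) (fun i => i.elim0)
    exact ⟨m, BFR.anti (empty_subset _) hm⟩
  choose g hg using hm
  refine not_injective_cantor g ?_
  intro f f' hff
  apply H
  have h2 : BFR (T f) (ρ (g f)).1 univ univ γ ∅ := by
    have h3 : BFR (T f) (pl (T f) (e f)) univ univ γ ∅ :=
      (hpl f γ).symm fun a ha => absurd ha (notMem_empty a)
    exact h3.trans (hg f) fun a ha => absurd ha (notMem_empty a)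
  have h4 : BFR (ρ (g f)).1 (T f') univ univ γ ∅ := by
    rw [hff]
    have h5 : BFR (ρ (g f')).1 (pl (T f') (e f')) univ univ γ ∅ :=
      (hg f').symm fun a ha => absurd ha (notMem_empty a)
    exact h5.trans (hpl f' γ) fun a ha => absurd ha (notMem_empty a)
  exact h2.trans h4 fun a ha => absurd ha (notMem_empty a)

/-- the same for pieces of `S` -/
theorem VSt.false_of_code' (h : VSt K δ S) (X : (ℕ → Bool) → Set M)
    (hc : ∀ f, (X f).Countable) (hX : ∀ f, BFR S S (X f) univ δ ∅) {γ : Ordinal.{0}}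
    (hγ : γ < om1) (H : ∀ f g, BFR S S (X f) (X g) γ ∅ → f = g) : False := by
  have hpl : ∀ (f : ℕ → Bool) (γ : Ordinal.{0}),
      BFR (pl S (Subtype.val : X f → M)) S univ (X f) γ ∅ := by
    intro f γ
    have h1 := BFR_pl (S := S) (f := (Subtype.val : X f → M)) Subtype.val_injective γ (p := ∅)
      fun a ha => absurd ha (notMem_empty a)
    rwa [Subtype.range_val] at h1
  refine h.false_of_code (fun f => X f) (fun f => pl S (Subtype.val : X f → M))
    (fun f => (hc f).to_subtype) (fun f => ?_) hγ (fun f g hfg => H f g ?_)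
  · exact (hpl f δ).trans (hX f) fun a ha => absurd ha (notMem_empty a)
  · have h1 : BFR S (pl S (Subtype.val : X f → M)) (X f) univ γ ∅ :=
      (hpl f γ).symm fun a ha => absurd ha (notMem_empty a)
    have h2 := h1.trans hfg (r := ∅) fun a ha => absurd ha (notMem_empty a)
    exact h2.trans (hpl g γ) fun a ha => absurd ha (notMem_empty a)

/-! ## MODULE BR: branch lemma -/

/-- **Branch lemma.** -/
theorem VSt.branch (h : VSt K δ S) (v : Om → M) {n : ℕ} (s : Fin n → M) :
    ∃ V : Set Om, ¬ V.Countable ∧ ∀ γ < om1, ∃ C : Set Om, C.Countable ∧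
      ∀ i ∈ V, i ∉ C → ∀ j ∈ V, j ∉ C →
        BFR S S univ univ γ (insert (v i, v j) (range fun k => (s k, s k))) := by
  classical
  let w : Om → Fin (n + 1) → M := fun i => Fin.cons (v i) s
  have hch : ∀ i : Om, ∃ x : PM L (Fin (n + 1)), x.1 ∈ K ∧
      BFR S x.1 univ univ (od i) (range fun k => (w i k, x.2 k)) := by
    intro i
    have hlt : od i + ((n + 1 : ℕ) : Ordinal.{0}) < om1 :=
      add_lt_om1 (od_lt i) (natCast_lt_om1 (n + 1))
    obtain ⟨S1, hS1, h1⟩ := h.lev _ hlt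
    obtain ⟨y, -, hy⟩ := BFR.forth_many (n + 1) h1 (w i) fun _ => mem_univ _
    exact ⟨(S1, y), hS1, BFR.anti subset_union_right hy⟩
  choose x hxK hx using hch
  obtain ⟨V, -, hV, b, hb, hbV⟩ := exists_ft h.meas h.scat (Finset.univ : Finset (Fin (n + 1))) x
    hxK univ not_countable_om
  refine ⟨V, hV, fun γ hγ => ⟨{α ∈ V | x α ∉ b γ} ∪ {α | od α < γ},
    (hbV γ hγ).union (countable_od_lt hγ), ?_⟩⟩
  intro i hi hiC j hj hjC
  have hib : x i ∈ b γ := by
    by_contra hcon
    exact hiC (Or.inl ⟨hi, hcon⟩)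
  have hjb : x j ∈ b γ := by
    by_contra hcon
    exact hjC (Or.inl ⟨hj, hcon⟩)
  have hiγ : γ ≤ od i := not_lt.mp fun hcon => hiC (Or.inr hcon)
  have hjγ : γ ≤ od j := not_lt.mp fun hcon => hjC (Or.inr hcon)
  have h1 : EqT ((Finset.univ : Finset (Fin (n + 1))) : Set (Fin (n + 1))) γ (x i) (x j) :=
    (hb.cls γ hγ).eqT hib hjb
  have h2 : BFR S (x j).1 univ univ γ (range fun k => (w i k, (x j).2 k)) := by
    refine ((hx i).mono hiγ).trans h1 ?_
    rintro _ ⟨k, rfl⟩
    exact ⟨(x i).2 k, ⟨k, rfl⟩, ⟨k, by simp, rfl⟩⟩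
  have h3 : BFR (x j).1 S univ univ γ (range fun k => ((x j).2 k, w j k)) := by
    refine ((hx j).mono hjγ).symm ?_
    rintro _ ⟨k, rfl⟩
    exact ⟨k, rfl⟩
  refine h2.trans h3 ?_
  rintro a (rfl | ⟨k, rfl⟩)
  · exact ⟨(x j).2 0, ⟨0, by simp [w]⟩, ⟨0, by simp [w]⟩⟩
  · exact ⟨(x j).2 k.succ, ⟨k.succ, by simp [w]⟩, ⟨k.succ, by simp [w]⟩⟩

end

end Pool.Agent.Helper97.LO
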