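import Pool.Agent.Helper22.VCM.C2b
import Pool.Agent.Helper60.VCM.C2a

/-!
# Tame structures have a countable set of elements realising all types
-/

set_option autoImplicit false
set_option linter.unusedSectionVars false
set_option linter.unusedVariables false

namespace Pool.Agent.Helper97.LO

open Set Pool.Agent.Helper5.DU Pool.Agent.Helper6.Str Pool.Agent.Helper79.VC
  Pool.Agent.Helper97.VC Pool.Agent.Helper97.MD

variable {L : FirstOrder.Language.{0, 0}} {M : Type}

theorem not_noCtblType [∀ n, IsEmpty (L.Functions n)] [∀ n, Countable (L.Relations n)]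
    {S : L.Structure M} (h : TameX S univ) : ¬ NoCtblType S := by
  intro hN
  obtain ⟨B, hB, -, -, hB2⟩ := h.exists_closed countable_empty (empty_subset _)
  exact hN ⟨B, hB, fun F hF c => hB2 F hF c (mem_univ c)⟩

end Pool.Agent.Helper97.LO
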